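import Pool.Agent.Q143.MW.Cases1
import Pool.Agent.Q143.MW.Cases2
import Pool.Agent.Q143.MW.Det

/-!
# The Mani–Walkup complex has no polytopal completion

`K` is the complex with 12 vertices and 26 tetrahedra of Mani and Walkup. Suppose that `K` is
contained in a simplicial complex `T` which is isomorphic to the boundary complex of a convex
`4`-polytope `P`. Only the twelve vertices of `P` which correspond to the vertices of `K` are used:
for every tetrahedron `τ` of `K` the other eight of these vertices lie strictly on one side of the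
hyperplane spanned by `τ`. Hence the orientations `[τ, x]` of the simplices spanned by `τ` and one
more vertex have the same sign for all `x`. In all cases a chain of three-term Grassmann–Plücker
relations `[A a b] [A c d] - [A a c] [A b d] + [A a d] [A b c] = 0` determines further signs and
ends with a relation whose three terms have the same sign.
-/

set_option autoImplicit false

namespace Pool.Agent.Results.MP_952ea4_co.NoPolytopalCompletion

open Pool.Agent.Q143.MW Vertex

/-- The sign condition from supporting hyperplanes. -/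
theorem signCondition_of_forms {L : List (Vertex × Vertex × Vertex × Vertex)}
    (hL : ∀ x y z u, (x, y, z, u) ∈ L → x ≠ y ∧ x ≠ z ∧ x ≠ u ∧ y ≠ z ∧ y ≠ u ∧ z ≠ u)
    (w : Vertex → Fin 5 → ℝ) (hw0 : ∀ x, w x 0 = 1)
    (H : ∀ σ ∈ facesOf L, ∃ ℓ : Fin 5 → ℝ, (∀ x ∈ σ, w x ⬝ᵥ ℓ = 0) ∧ ∀ x, x ∉ σ → 0 < w x ⬝ᵥ ℓ) :
    SignCondition L fun x y z u v => D (w x) (w y) (w z) (w u) (w v) := by
  intro x y z u hτ
  -- the four vertices are different
  obtain ⟨hxy, hxz, hxu, hyz, hyu, hzu⟩ := hL x y z u hτ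
  -- linear independence
  have hind : ∀ r : Fin 4 → ℝ, r 0 • w x + r 1 • w y + r 2 • w z + r 3 • w u = 0 → r = 0 := by
    intro r hr
    by_contra hne
    let p : Fin 4 → Vertex := ![x, y, z, u]
    have hp : Function.Injective p := by
      intro i j hij
      fin_cases i <;> fin_cases j <;> simp_all [p]
    have hr' : ∑ i, r i • w (p i) = 0 := by
      rw [Fin.sum_univ_four]
      exact hr
    have hsum : ∑ i, r i = 0 := by
      have := congrFun hr' 0
      simpa [Finset.sum_apply, hw0] using this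
    have hpos : ∃ i, 0 < r i := by
      by_contra hcon
      push Not at hcon
      apply hne
      funext i
      exact (Finset.sum_eq_zero_iff_of_nonpos (fun i _ => hcon i)).mp hsum i (Finset.mem_univ i)
    obtain ⟨i₀, hi₀⟩ := hpos
    have hneg : ∃ i, r i < 0 := by
      by_contra hcon
      push Not at hcon
      have := (Finset.sum_eq_zero_iff_of_nonneg (fun i _ => hcon i)).mp hsum i₀
        (Finset.mem_univ i₀)
      linarith
    obtain ⟨i₁, hi₁⟩ := hneg
    let σ : Finset Vertex := (Finset.univ.filter fun i => 0 < r i).image p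
    have hσ : σ ∈ facesOf L := by
      refine ⟨⟨p i₀, Finset.mem_image_of_mem p (by simpa using hi₀)⟩, x, y, z, u, hτ, ?_⟩
      intro v hv
      obtain ⟨i, -, rfl⟩ := Finset.mem_image.mp hv
      fin_cases i <;> simp [p]
    obtain ⟨ℓ, h1, h2⟩ := H σ hσ
    have h3 : ∑ i, r i * (w (p i) ⬝ᵥ ℓ) = 0 := by
      have := congrArg (fun q => q ⬝ᵥ ℓ) hr'
      simpa [sum_dotProduct, smul_dotProduct] using this
    have h4 : ∀ i, r i * (w (p i) ⬝ᵥ ℓ) ≤ 0 := by
      intro i
      by_cases hi : 0 < r i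
      · rw [h1 (p i) (Finset.mem_image_of_mem p (by simpa using hi)), mul_zero]
      · have : p i ∉ σ := by
          intro hmem
          obtain ⟨j, hj, hj2⟩ := Finset.mem_image.mp hmem
          rw [hp hj2] at hj
          exact hi (by simpa using hj)
        exact mul_nonpos_of_nonpos_of_nonneg (not_lt.mp hi) (h2 _ this).le
    have h5 := (Finset.sum_eq_zero_iff_of_nonpos (fun i _ => h4 i)).mp h3 i₁ (Finset.mem_univ i₁)
    have h6 : p i₁ ∉ σ := by
      intro hmem
      obtain ⟨j, hj, hj2⟩ := Finset.mem_image.mp hmem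
      rw [hp hj2] at hj
      have : 0 < r i₁ := by simpa using hj
      linarith
    have := mul_neg_of_neg_of_pos hi₁ (h2 _ h6)
    linarith
  obtain ⟨ℓ, h1, h2⟩ := H {x, y, z, u} ⟨⟨x, by simp⟩, x, y, z, u, hτ, subset_rfl⟩
  have hℓ : ℓ ≠ 0 := by
    rintro rfl
    obtain ⟨v, hv⟩ : ∃ v : Vertex, v ∉ ({x, y, z, u} : Finset Vertex) := by
      by_contra hcon
      push Not at hcon
      have h := Finset.card_le_card (fun v _ => hcon v : (Finset.univ : Finset Vertex) ⊆ _)
      have h' := h.trans (Finset.card_le_four)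
      revert h'
      decide
    have := h2 v hv
    simp at this
  obtain ⟨κ, hκ, hκ2⟩ := D_eq_mul hℓ (h1 x (by simp)) (h1 y (by simp)) (h1 z (by simp))
    (h1 u (by simp)) hind
  rcases lt_or_gt_of_ne hκ with hk | hk
  · refine Or.inr fun v hv => ?_
    show D (w x) (w y) (w z) (w u) (w v) < 0
    rw [hκ2]
    exact mul_neg_of_neg_of_pos hk (h2 v (by simp [hv.1, hv.2.1, hv.2.2.1, hv.2.2.2]))
  · refine Or.inl fun v hv => ?_
    show 0 < D (w x) (w y) (w z) (w u) (w v)
    rw [hκ2]
    exact mul_pos hk (h2 v (by simp [hv.1, hv.2.1, hv.2.2.1, hv.2.2.2]))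

/-- the first list: different vertices in every tetrahedron -/
theorem distinct₁ : ∀ x y z u, (x, y, z, u) ∈ facets →
    x ≠ y ∧ x ≠ z ∧ x ≠ u ∧ y ≠ z ∧ y ≠ u ∧ z ≠ u := by
  intro x y z u h
  have key : ∀ τ ∈ facets, τ.1 ≠ τ.2.1 ∧ τ.1 ≠ τ.2.2.1 ∧ τ.1 ≠ τ.2.2.2 ∧ τ.2.1 ≠ τ.2.2.1 ∧
    τ.2.1 ≠ τ.2.2.2 ∧ τ.2.2.1 ≠ τ.2.2.2 := by simp [facets]
  exact key _ h

/-- the second list: different vertices in every tetrahedron -/
theorem distinct₂ : ∀ x y z u, (x, y, z, u) ∈ facets₂ →
    x ≠ y ∧ x ≠ z ∧ x ≠ u ∧ y ≠ z ∧ y ≠ u ∧ z ≠ u := by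
  intro x y z u h
  have key : ∀ τ ∈ facets₂, τ.1 ≠ τ.2.1 ∧ τ.1 ≠ τ.2.2.1 ∧ τ.1 ≠ τ.2.2.2 ∧ τ.2.1 ≠ τ.2.2.1 ∧
    τ.2.1 ≠ τ.2.2.2 ∧ τ.2.2.1 ≠ τ.2.2.2 := by simp [facets₂]
  exact key _ h

theorem singleton_mem₁ (v : Vertex) : {v} ∈ facesOf facets := by
  have key : ∀ v : Vertex, ∃ τ ∈ facets, v = τ.1 ∨ v = τ.2.1 ∨ v = τ.2.2.1 ∨ v = τ.2.2.2 := by
    decide
  obtain ⟨⟨x, y, z, u⟩, h1, h2⟩ := key v
  refine ⟨Finset.singleton_nonempty v, x, y, z, u, h1, ?_⟩
  rw [Finset.singleton_subset_iff]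
  simpa using h2

theorem singleton_mem₂ (v : Vertex) : {v} ∈ facesOf facets₂ := by
  have key : ∀ v : Vertex, ∃ τ ∈ facets₂, v = τ.1 ∨ v = τ.2.1 ∨ v = τ.2.2.1 ∨ v = τ.2.2.2 := by
    decide
  obtain ⟨⟨x, y, z, u⟩, h1, h2⟩ := key v
  refine ⟨Finset.singleton_nonempty v, x, y, z, u, h1, ?_⟩
  rw [Finset.singleton_subset_iff]
  simpa using h2

/-- the brackets of a configuration -/
theorem alt_bracket (w : Vertex → Fin 5 → ℝ) :
    Alt fun x y z u v => D (w x) (w y) (w z) (w u) (w v) := by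
  refine ⟨?_, ?_, ?_, ?_, ?_⟩
  · exact fun x y z u v => D_s12 _ _ _ _ _
  · exact fun x y z u v => D_s23 _ _ _ _ _
  · exact fun x y z u v => D_s34 _ _ _ _ _
  · exact fun x y z u v => D_s45 _ _ _ _ _
  · exact fun x y z u₁ u₂ u₃ u₄ => gp _ _ _ _ _ _ _

/-- A polytopal complex which contains the complex of a list of tetrahedra gives twelve vectors
with supporting forms. -/
theorem exists_forms {V : Type*} {T : AbstractSimplicialComplex V}
    {L : List (Vertex × Vertex × Vertex × Vertex)} (hs : ∀ v, {v} ∈ facesOf L)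
    (hT : ContainsComplex T L) (hP : IsPolytopal T) :
    ∃ w : Vertex → Fin 5 → ℝ, (∀ x, w x 0 = 1) ∧
      ∀ σ ∈ facesOf L, ∃ ℓ : Fin 5 → ℝ, (∀ x ∈ σ, w x ⬝ᵥ ℓ = 0) ∧
        ∀ x, x ∉ σ → 0 < w x ⬝ᵥ ℓ := by
  obtain ⟨P, -, φ, hφ, hPT⟩ := hP
  obtain ⟨ι, hι⟩ := hT
  -- the images of the vertices of `K`
  let v : Vertex → EuclideanSpace ℝ (Fin 4) := fun x => φ (ι x)
  have hv : Function.Injective v := hφ.comp ι.injective
  have hface : ∀ σ ∈ facesOf L, ∃ F, IsExposed ℝ P F ∧ F.Nonempty ∧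
      v '' (σ : Set Vertex) = Set.extremePoints ℝ P ∩ F := by
    intro σ hσ
    have h1 : (fun σ : Finset V => φ '' (σ : Set V)) (σ.map ι) ∈ boundaryComplex P := by
      rw [← hPT]
      exact Set.mem_image_of_mem _ (hι σ hσ)
    obtain ⟨F, h2, h3, -, h4⟩ := h1
    refine ⟨F, h2, h3, ?_⟩
    rw [← h4]
    simp only [Finset.coe_map, Set.image_image, v]
  have hext : ∀ x, v x ∈ Set.extremePoints ℝ P := by
    intro x
    obtain ⟨F, -, -, h⟩ := hface {x} (hs x)
    have : v x ∈ v '' ((({x} : Finset Vertex)) : Set Vertex) := ⟨x, by simp, rfl⟩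
    rw [h] at this
    exact this.1
  refine ⟨fun x => Fin.cons 1 (fun i => v x i), fun x => rfl, ?_⟩
  intro σ hσ
  obtain ⟨F, hF, hne, hσF⟩ := hface σ hσ
  obtain ⟨l, hl⟩ := hF hne
  obtain ⟨x₀, hx₀⟩ : ∃ x, x ∈ σ := hσ.1
  have hmem : ∀ x, x ∈ σ ↔ v x ∈ F := by
    intro x
    constructor
    · intro hx
      have : v x ∈ v '' (σ : Set Vertex) := ⟨x, hx, rfl⟩
      rw [hσF] at this
      exact this.2
    · intro hx
      have : v x ∈ v '' (σ : Set Vertex) := by
        rw [hσF]
        exact ⟨hext x, hx⟩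
      obtain ⟨y, hy, hy2⟩ := this
      rwa [← hv hy2]
  have hl₀ := (hmem x₀).mp hx₀
  rw [hl] at hl₀
  have hval : ∀ x, (Fin.cons 1 (fun i => v x i) : Fin 5 → ℝ) ⬝ᵥ
      Fin.cons (l (v x₀)) (fun i => -l (EuclideanSpace.single i 1)) = l (v x₀) - l (v x) := by
    intro x
    have h1 : l (v x) = ∑ i, v x i * l (EuclideanSpace.single i 1) := by
      conv_lhs => rw [← (EuclideanSpace.basisFun (Fin 4) ℝ).sum_repr (v x)]
      rw [map_sum]
      refine Finset.sum_congr rfl fun i _ => ?_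
      rw [map_smul, smul_eq_mul]
      simp
    rw [h1, dotProduct, Fin.sum_univ_succ]
    simp only [Fin.cons_zero, Fin.cons_succ, one_mul, mul_neg, Finset.sum_neg_distrib]
    ring
  refine ⟨Fin.cons (l (v x₀)) (fun i => -l (EuclideanSpace.single i 1)), ?_, ?_⟩
  · intro x hx
    rw [hval]
    have hx' := (hmem x).mp hx
    rw [hl] at hx'
    have h1 := hx'.2 _ hl₀.1
    have h2 := hl₀.2 _ hx'.1
    linarith
  · intro x hx
    rw [hval]
    have hx' : v x ∉ F := fun h => hx ((hmem x).mpr h)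
    rw [hl] at hx'
    have h3 : v x ∈ P := (hext x).1
    have h4 : ∃ y ∈ P, l (v x) < l y := by
      by_contra hcon
      push Not at hcon
      exact hx' ⟨h3, hcon⟩
    obtain ⟨y, hy, hy2⟩ := h4
    have := hl₀.2 y hy
    linarith

/-- **The Mani–Walkup complex has no polytopal completion.** A simplicial complex (whatever its
vertex set and its topology are) which contains `K` as a subcomplex is not isomorphic to the
boundary complex of a convex polytope of dimension four. In particular every triangulation of the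
`3`-sphere which contains `K` as a subcomplex is non-polytopal. This holds for the list of
tetrahedra of the problem and for the list with `dmnq`, `dmns` in place of `dmrq`, `dmrs`. -/
theorem result {V : Type*} (T : AbstractSimplicialComplex V)
    (hT : ContainsComplex T facets ∨ ContainsComplex T facets₂) : ¬ IsPolytopal T := by
  intro hP
  rcases hT with hT | hT
  · obtain ⟨w, h1, h2⟩ := exists_forms singleton_mem₁ hT hP
    exact contradiction₁ (alt_bracket w) (signCondition_of_forms distinct₁ w h1 h2)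
  · obtain ⟨w, h1, h2⟩ := exists_forms singleton_mem₂ hT hP
    exact contradiction₂ (alt_bracket w) (signCondition_of_forms distinct₂ w h1 h2)

end Pool.Agent.Results.MP_952ea4_co.NoPolytopalCompletion
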